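import Pool.Agent.TH219.DL.Fary
import Pool.Agent.Y498.ML.Hole

/-!
# Planar lemmas: John's decomposition in the plane, deep holes, two chords of a convex disc
-/

set_option autoImplicit false

open MeasureTheory Matrix

namespace Q116.LP

open Pool.Agent.TH219.DL

/-- two of the unit vectors of a decomposition of the identity of the plane enclose an angle
between `60` and `120` degrees -/
theorem pair2 {ι : Type} [Fintype ι] {v : ι → Fin 2 → ℝ} {c : ι → ℝ} (hc : ∀ i, 0 < c i)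
    (hv : ∀ i, v i ⬝ᵥ v i = 1) (hs : ∑ i, c i • Matrix.vecMulVec (v i) (v i) = 1) :
    ∃ i j, 3 / 4 ≤ (v i 0 * v j 1 - v i 1 * v j 0) ^ 2 := by
  classical
  have hent : ∀ a b : Fin 2, ∑ i, c i * (v i a * v i b) = (1 : Matrix (Fin 2) (Fin 2) ℝ) a b := by
    intro a b
    rw [← hs, Matrix.sum_apply]
    refine Finset.sum_congr rfl fun i _ => ?_
    simp [Matrix.vecMulVec_apply]
  have h00 := hent 0 0
  have h11 := hent 1 1
  have h01 := hent 0 1
  rw [Matrix.one_apply_eq] at h00 h11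
  rw [Matrix.one_apply_ne (by decide)] at h01
  have hbil : ∀ p q r s : ℝ, ∑ k, c k * ((p * v k 0 + q * v k 1) * (r * v k 0 + s * v k 1))
      = p * r + q * s := by
    intro p q r s
    have e : ∀ k, c k * ((p * v k 0 + q * v k 1) * (r * v k 0 + s * v k 1))
        = p * r * (c k * (v k 0 * v k 0)) + (p * s + q * r) * (c k * (v k 0 * v k 1))
          + q * s * (c k * (v k 1 * v k 1)) := fun k => by ring
    rw [Finset.sum_congr rfl fun k _ => e k, Finset.sum_add_distrib, Finset.sum_add_distrib,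
      ← Finset.mul_sum, ← Finset.mul_sum, ← Finset.mul_sum, h00, h01, h11]
    ring
  have hv' : ∀ i, v i 0 ^ 2 + v i 1 ^ 2 = 1 := by
    intro i
    have := hv i
    simp only [dotProduct, Fin.sum_univ_two] at this
    linarith [this]
  have hne : Nonempty ι := by
    by_contra hemp
    rw [not_nonempty_iff] at hemp
    simp at h00
  obtain ⟨⟨i, j⟩, hmax⟩ := Finite.exists_max
    (fun p : ι × ι => (v p.1 0 * v p.2 1 - v p.1 1 * v p.2 0) ^ 2)
  simp only [Prod.forall] at hmax
  refine ⟨i, j, ?_⟩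
  by_contra hcon
  push Not at hcon
  set D := v i 0 * v j 1 - v i 1 * v j 0 with hD
  set t := v i 0 * v j 0 + v i 1 * v j 1 with ht
  have ht2 : t ^ 2 = 1 - D ^ 2 := by
    have h1 := hv' i
    have h2 := hv' j
    have : t ^ 2 + D ^ 2 = (v i 0 ^ 2 + v i 1 ^ 2) * (v j 0 ^ 2 + v j 1 ^ 2) := by
      rw [ht, hD]; ring
    rw [h1, h2] at this
    linarith
  have hX : ∀ k, (v j 1 * v k 0 + -v j 0 * v k 1) ^ 2 ≤ D ^ 2 := by
    intro k
    have := hmax k j
    calc _ = (v k 0 * v j 1 - v k 1 * v j 0) ^ 2 := by ring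
      _ ≤ _ := this
  have hY : ∀ k, (-v i 1 * v k 0 + v i 0 * v k 1) ^ 2 ≤ D ^ 2 := by
    intro k
    have := hmax i k
    calc _ = (v i 0 * v k 1 - v i 1 * v k 0) ^ 2 := by ring
      _ ≤ _ := this
  have hid : ∀ k, D ^ 2 = (v j 1 * v k 0 + -v j 0 * v k 1) ^ 2
      + (-v i 1 * v k 0 + v i 0 * v k 1) ^ 2
      + 2 * ((v j 1 * v k 0 + -v j 0 * v k 1) * (-v i 1 * v k 0 + v i 0 * v k 1)) * t := by
    intro k
    have h1 := hv' i
    have h2 := hv' j
    have h3 := hv' k
    have e : (v j 1 * v k 0 + -v j 0 * v k 1) ^ 2 * (v i 0 ^ 2 + v i 1 ^ 2)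
      + (-v i 1 * v k 0 + v i 0 * v k 1) ^ 2 * (v j 0 ^ 2 + v j 1 ^ 2)
      + 2 * ((v j 1 * v k 0 + -v j 0 * v k 1) * (-v i 1 * v k 0 + v i 0 * v k 1)) * t
      = D ^ 2 * (v k 0 ^ 2 + v k 1 ^ 2) := by
      rw [hD, ht]; ring
    rw [h1, h2, h3] at e
    linarith
  have hneg : ∃ k, (v j 1 * v k 0 + -v j 0 * v k 1) * (-v i 1 * v k 0 + v i 0 * v k 1) * t < 0 := by
    by_contra hall
    push Not at hall
    have h1 := hbil (v j 1) (-v j 0) (-v i 1) (v i 0)
    have h2 : 0 ≤ ∑ k, c k * ((v j 1 * v k 0 + -v j 0 * v k 1) *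
        (-v i 1 * v k 0 + v i 0 * v k 1)) * t := by
      refine Finset.sum_nonneg fun k _ => ?_
      have := hall k
      have h3 := hc k
      calc 0 ≤ c k * ((v j 1 * v k 0 + -v j 0 * v k 1) * (-v i 1 * v k 0 + v i 0 * v k 1) * t) :=
            mul_nonneg h3.le this
        _ = _ := by ring
    rw [← Finset.sum_mul, h1] at h2
    have h4 : v j 1 * -v i 1 + -v j 0 * v i 0 = -t := by rw [ht]; ring
    rw [h4] at h2
    nlinarith
  obtain ⟨k, hk⟩ := hneg
  have e1 := hX k
  have e2 := hY k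
  have e3 := hid k
  generalize (v j 1 * v k 0 + -v j 0 * v k 1) = X at *
  generalize (-v i 1 * v k 0 + v i 0 * v k 1) = Y at *
  have ht1 : 1 / 4 < t ^ 2 := by rw [ht2]; linarith
  -- `|X Y| / 2 < - X Y t`
  have h5 : (X * Y) ^ 2 / 4 < (X * Y * t) ^ 2 := by
    have h6 : 0 < (X * Y) ^ 2 := by
      have : X * Y ≠ 0 := by
        intro h
        rw [h] at hk
        simp at hk
      positivity
    nlinarith
  have h7 : |X * Y| / 2 < -(X * Y * t) := by
    have h8 : (|X * Y| / 2) ^ 2 < (-(X * Y * t)) ^ 2 := by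
      rw [div_pow, sq_abs, neg_sq]
      linarith
    exact lt_of_pow_lt_pow_left₀ 2 (by linarith) h8
  have h9 : X ^ 2 + Y ^ 2 - |X * Y| ≤ D ^ 2 := by
    rw [abs_mul]
    have hx := sq_abs X
    have hy := sq_abs Y
    rw [← hx, ← hy]
    rw [← hx] at e1
    rw [← hy] at e2
    rcases le_total |X| |Y| with h | h
    · nlinarith [abs_nonneg X, abs_nonneg Y]
    · nlinarith [abs_nonneg X, abs_nonneg Y]
  linarith

/-- the circumradius of a lattice triangle without obtuse angle and the determinant -/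
theorem circ_det {a b c D : ℝ} (hD : 0 < D) (hΔ : a * c - b ^ 2 = D ^ 2) (hb : 0 ≤ b)
    (hba : 2 * b ≤ a) (hbc : 2 * b ≤ c) :
    2 * D / (3 * √3) ≤ a * c * (a + c - 2 * b) / (4 * (a * c - b ^ 2)) := by
  obtain ⟨U, hU⟩ : ∃ U, U = c - b := ⟨_, rfl⟩
  obtain ⟨V, hV⟩ : ∃ V, V = a - b := ⟨_, rfl⟩
  have hU0 : 0 ≤ U := by linarith
  have hV0 : 0 ≤ V := by linarith
  have ea : a = V + b := by linarith
  have ec : c = U + b := by linarith
  obtain ⟨s, hs⟩ : ∃ s, s = U * V + U * b + V * b := ⟨_, rfl⟩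
  have hsD : s = D ^ 2 := by rw [← hΔ, hs, ea, ec]; ring
  have hs0 : 0 < s := by rw [hsD]; positivity
  obtain ⟨P, hP⟩ : ∃ P, P = a * c * (a + c - 2 * b) := ⟨_, rfl⟩
  have hP1 : 8 / 9 * (U + V + b) * s ≤ P := by
    rw [hP, hs, ea, ec]
    nlinarith [mul_nonneg hU0 (sq_nonneg (V - b)), mul_nonneg hV0 (sq_nonneg (U - b)),
      mul_nonneg hb (sq_nonneg (U - V))]
  have hP0 : 0 ≤ P := le_trans (by positivity) hP1
  have hsum : 3 * s ≤ (U + V + b) ^ 2 := by
    rw [hs]
    nlinarith [sq_nonneg (U - V), sq_nonneg (V - b), sq_nonneg (U - b)]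
  have hP2 : 64 * s ^ 3 ≤ 27 * P ^ 2 := by
    have h1 : (8 / 9 * (U + V + b) * s) ^ 2 ≤ P ^ 2 := pow_le_pow_left₀ (by positivity) hP1 2
    have h2 : s ^ 2 * (3 * s) ≤ s ^ 2 * (U + V + b) ^ 2 :=
      mul_le_mul_of_nonneg_left hsum (by positivity)
    nlinarith
  rw [hΔ, ← hP, div_le_div_iff₀ (by positivity) (by positivity)]
  -- `2 D * (4 D^2) ≤ P * (3 √3)`
  have h3 : (2 * D * (4 * D ^ 2)) ^ 2 ≤ (P * (3 * √3)) ^ 2 := by
    have e3 : (√3 : ℝ) ^ 2 = 3 := Real.sq_sqrt (by norm_num)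
    have : (P * (3 * √3)) ^ 2 = 27 * P ^ 2 := by
      calc (P * (3 * √3)) ^ 2 = 9 * P ^ 2 * (√3) ^ 2 := by ring
        _ = _ := by rw [e3]; ring
    rw [this]
    calc (2 * D * (4 * D ^ 2)) ^ 2 = 64 * (D ^ 2) ^ 3 := by ring
      _ = 64 * s ^ 3 := by rw [← hsD]
      _ ≤ _ := hP2
  exact (pow_le_pow_iff_left₀ (by positivity) (by positivity) two_ne_zero).1 h3

/-- the deep hole of a planar lattice of determinant `D` is at distance at least
`√(2 D / (3 √3))` from the lattice -/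
theorem hole_det {u w : Fin 2 → ℝ} {D : ℝ} (hDd : D = u 0 * w 1 - u 1 * w 0) (hD : 0 < D) :
    ∃ t : Fin 2 → ℝ, ∀ m n : ℤ,
      2 * D / (3 * √3) ≤ (t 0 - (m * u 0 + n * w 0)) ^ 2 + (t 1 - (m * u 1 + n * w 1)) ^ 2 := by
  obtain ⟨u', w', p, q, r, s, h1, hu', hw', h2, h3, h4⟩ :=
    Pool.Agent.Y498.ML.reduced (u := u) (w := w) (by rw [← hDd]; exact hD)
  have hε : p * s - q * r = 1 ∨ p * s - q * r = -1 := by
    have h : (p * s - q * r - 1) * (p * s - q * r + 1) = 0 := by linear_combination h1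
    rcases mul_eq_zero.1 h with h | h
    · left; omega
    · right; omega
  have h1R : ((p : ℝ) * s - q * r) ^ 2 = 1 := by exact_mod_cast h1
  set a := u' 0 ^ 2 + u' 1 ^ 2 with had
  set c := w' 0 ^ 2 + w' 1 ^ 2 with hcd
  set b := u' 0 * w' 0 + u' 1 * w' 1 with hbd
  have hΔ : a * c - b ^ 2 = D ^ 2 := by
    have e : a * c - b ^ 2 = (u' 0 * w' 1 - u' 1 * w' 0) ^ 2 := by
      rw [had, hcd, hbd]; ring
    have e2 : u' 0 * w' 1 - u' 1 * w' 0 = ((p : ℝ) * s - q * r) * D := by
      rw [hu' 0, hu' 1, hw' 0, hw' 1, hDd]; ring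
    rw [e, e2, mul_pow, h1R, one_mul]
  have hΔ0 : 0 < a * c - b ^ 2 := by rw [hΔ]; positivity
  obtain ⟨t, ht⟩ := Pool.Agent.Y498.ML.hole_red (u := u') (w := w') had hcd hbd hΔ0 h2 h3 h4
  refine ⟨t, fun m n => ?_⟩
  have h5 := circ_det hD hΔ h2 h3 h4
  rcases hε with h | h
  · have hR : (p : ℝ) * s - q * r = 1 := by exact_mod_cast h
    have h6 := ht (m * s - n * r) (-m * q + n * p)
    rw [hu' 0, hu' 1, hw' 0, hw' 1] at h6
    push_cast at h6
    have e0 : ((m : ℝ) * s - n * r) * (p * u 0 + q * w 0) + (-m * q + n * p) * (r * u 0 + s * w 0)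
        = m * u 0 + n * w 0 := by linear_combination (m * u 0 + n * w 0) * hR
    have e1 : ((m : ℝ) * s - n * r) * (p * u 1 + q * w 1) + (-m * q + n * p) * (r * u 1 + s * w 1)
        = m * u 1 + n * w 1 := by linear_combination (m * u 1 + n * w 1) * hR
    rw [e0, e1] at h6
    linarith
  · have hR : (p : ℝ) * s - q * r = -1 := by exact_mod_cast h
    have h6 := ht (-(m * s - n * r)) (-(-m * q + n * p))
    rw [hu' 0, hu' 1, hw' 0, hw' 1] at h6
    push_cast at h6
    have e0 : (-((m : ℝ) * s - n * r)) * (p * u 0 + q * w 0)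
        + (-(-m * q + n * p)) * (r * u 0 + s * w 0)
        = m * u 0 + n * w 0 := by linear_combination (-(m * u 0 + n * w 0)) * hR
    have e1 : (-((m : ℝ) * s - n * r)) * (p * u 1 + q * w 1)
        + (-(-m * q + n * p)) * (r * u 1 + s * w 1)
        = m * u 1 + n * w 1 := by linear_combination (-(m * u 1 + n * w 1)) * hR
    rw [e0, e1] at h6
    linarith

/-- half-open triangles are on one side of their edge -/
theorem tri_side {A B X Y : W} (hY : Y ∈ tri X A B) : ∃ z : ℝ, 0 < z ∧ Dt A B Y = z * Dt A B X := by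
  obtain ⟨z, ⟨h0, h1, h2⟩, rfl⟩ := hY
  exact ⟨z 0, h0, by simp only [Dt]; ring⟩

theorem vol_tri' {P : Set W} (hP : Convex ℝ P) {A B X : W} (hA : A ∈ P) (hB : B ∈ P)
    (hX : X ∈ P) : ENNReal.ofReal (|Dt A B X| / 2) ≤ volume P := by
  have h1 := vol_tri X A B
  have h2 : Dt B X A = Dt A B X := by simp only [Dt]; ring
  rw [h2] at h1
  exact h1.trans (measure_mono (tri_sub hP hX hA hB))

/-- the area of a convex disc with two given chords -/
theorem area_two {P : Set W} (hP : Convex ℝ P) {A B X Y : W} (hA : A ∈ P) (hB : B ∈ P)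
    (hX : X ∈ P) (hY : Y ∈ P) :
    ENNReal.ofReal (|Dt A B Y - Dt A B X| / 2) ≤ volume P := by
  rcases le_or_gt 0 (Dt A B X * Dt A B Y) with h | h
  · -- same side
    have h1 : |Dt A B Y - Dt A B X| ≤ |Dt A B X| ∨ |Dt A B Y - Dt A B X| ≤ |Dt A B Y| := by
      rcases le_total |Dt A B X| |Dt A B Y| with h2 | h2
      · right
        rw [← sq_le_sq]
        have := sq_le_sq.2 h2
        have h3 : Dt A B X ^ 2 ≤ Dt A B X * Dt A B Y := by
          have h4 : |Dt A B X| ^ 2 ≤ |Dt A B X| * |Dt A B Y| := by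
            rw [sq]; exact mul_le_mul_of_nonneg_left h2 (abs_nonneg _)
          rw [sq_abs, ← abs_mul, abs_of_nonneg h] at h4
          exact h4
        nlinarith
      · left
        rw [← sq_le_sq]
        have := sq_le_sq.2 h2
        have h3 : Dt A B Y ^ 2 ≤ Dt A B X * Dt A B Y := by
          have h4 : |Dt A B Y| ^ 2 ≤ |Dt A B X| * |Dt A B Y| := by
            rw [sq]; exact mul_le_mul_of_nonneg_right h2 (abs_nonneg _)
          rw [sq_abs, ← abs_mul, abs_of_nonneg h] at h4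
          exact h4
        nlinarith
    rcases h1 with h1 | h1
    · refine le_trans (ENNReal.ofReal_le_ofReal ?_) (vol_tri' hP hA hB hX)
      linarith
    · refine le_trans (ENNReal.ofReal_le_ofReal ?_) (vol_tri' hP hA hB hY)
      linarith
  · -- different sides
    have key : ∀ {X Y : W}, X ∈ P → Y ∈ P → Dt A B X < 0 → 0 < Dt A B Y →
        ENNReal.ofReal ((Dt A B Y - Dt A B X) / 2) ≤ volume P := by
      intro X Y hX hY hX0 hY0
      set S : Set W := {Z | Dt A B Z < 0} with hS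
      have mS : MeasurableSet S :=
        (isOpen_lt (Dt_cont continuous_const continuous_const continuous_id)
          continuous_const).measurableSet
      have e1 := measure_inter_add_sdiff (μ := volume) P mS
      have t1 : ENNReal.ofReal (-Dt A B X / 2) ≤ volume (P ∩ S) := by
        have h1 := vol_tri X A B
        have h2 : Dt B X A = Dt A B X := by simp only [Dt]; ring
        rw [h2, abs_of_neg hX0] at h1
        refine h1.trans (measure_mono fun Z hZ => ⟨tri_sub hP hX hA hB hZ, ?_⟩)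
        obtain ⟨z, hz, hz2⟩ := tri_side hZ
        show Dt A B Z < 0
        rw [hz2]
        exact mul_neg_of_pos_of_neg hz hX0
      have t2 : ENNReal.ofReal (Dt A B Y / 2) ≤ volume (P \ S) := by
        have h1 := vol_tri Y A B
        have h2 : Dt B Y A = Dt A B Y := by simp only [Dt]; ring
        rw [h2, abs_of_pos hY0] at h1
        refine h1.trans (measure_mono fun Z hZ => ⟨tri_sub hP hY hA hB hZ, ?_⟩)
        obtain ⟨z, hz, hz2⟩ := tri_side hZ
        show ¬ (Dt A B Z < 0)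
        rw [hz2, not_lt]
        exact (mul_pos hz hY0).le
      have e2 : (Dt A B Y - Dt A B X) / 2 = -Dt A B X / 2 + Dt A B Y / 2 := by ring
      rw [← e1, e2, ENNReal.ofReal_add (by linarith) (by linarith)]
      gcongr
    rcases lt_trichotomy (Dt A B X) 0 with h1 | h1 | h1
    · have h2 : 0 < Dt A B Y := by
        by_contra hcon
        push Not at hcon
        nlinarith
      rw [abs_of_pos (by linarith)]
      exact key hX hY h1 h2
    · rw [h1] at h; simp at h
    · have h2 : Dt A B Y < 0 := by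
        by_contra hcon
        push Not at hcon
        nlinarith
      rw [abs_sub_comm, abs_of_pos (by linarith)]
      exact key hY hX h2 h1

end Q116.LP
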