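import Pool.Agent.Y498.ML.Geo
import Pool.Agent.Q116.LP.Pl

/-!
# Shifted columns over Fáry's lattice: the volume, the determinant and the deep hole
-/

set_option autoImplicit false

namespace Q116.LP

open MeasureTheory Filter Topology
open scoped ENNReal
open Pool.Agent.H349R2.Tet
open Pool.Agent.TH219.DL
open Pool.Agent.Y498.ML (bh dt_bh hole_packs)

theorem num_bound {D : ℝ} (hD : 0 < D) (h : 2 * D / (3 * √3) < 1 / 5) :
    √5 / 9 * (√(1 - 2 * D / (3 * √3)) * D) ≤ √3 / 15 := by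
  have e3 : (√3 : ℝ) ^ 2 = 3 := Real.sq_sqrt (by norm_num)
  have e5 : (√5 : ℝ) ^ 2 = 5 := Real.sq_sqrt (by norm_num)
  have h3 : 0 < √3 := Real.sqrt_pos.2 (by norm_num)
  obtain ⟨k, hk⟩ : ∃ k, k = 2 * D / (3 * √3) := ⟨_, rfl⟩
  rw [← hk] at h ⊢
  have hk0 : 0 < k := by rw [hk]; positivity
  have hDk : D = 3 * √3 / 2 * k := by rw [hk]; field_simp
  have hD2 : D ^ 2 = 27 / 4 * k ^ 2 := by
    rw [hDk, mul_pow, div_pow, mul_pow, e3]; ring
  have hs : √(1 - k) ^ 2 = 1 - k := Real.sq_sqrt (by linarith)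
  have hmain : (√5 / 9 * (√(1 - k) * D)) ^ 2 ≤ (√3 / 15) ^ 2 := by
    have e1 : (√5 / 9 * (√(1 - k) * D)) ^ 2 = 5 / 81 * ((1 - k) * (27 / 4 * k ^ 2)) := by
      calc _ = √5 ^ 2 / 81 * (√(1 - k) ^ 2 * D ^ 2) := by ring
        _ = _ := by rw [e5, hs, hD2]
    have e2 : (√3 / 15 : ℝ) ^ 2 = 1 / 75 := by
      rw [div_pow, e3]; norm_num
    rw [e1, e2]
    have : k ^ 2 * (1 - k) ≤ 4 / 125 := by
      nlinarith [mul_pos hk0 hk0, mul_nonneg hk0.le (sub_nonneg.2 h.le),
        sq_nonneg (1 / 5 - k)]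
    linarith
  exact (pow_le_pow_iff_left₀ (by positivity) (by positivity) two_ne_zero).1 hmain

/-- a body of diameter one with a vertical chord of length one whose shadow has two chords which
span a large parallelogram -/
theorem geo_low {K : Set V} (hK : IsCompact K) (hc : Convex ℝ K) (hne : (interior K).Nonempty)
    (hd : ∀ x ∈ K, ∀ y ∈ K, (x 0 - y 0) ^ 2 + (x 1 - y 1) ^ 2 + (x 2 - y 2) ^ 2 ≤ 1)
    {x0 : Fin 2 → ℝ} (hx0 : x0 ∈ G K 1)
    (hw : ∃ x ∈ K, ∃ y ∈ K, ∃ x' ∈ K, ∃ y' ∈ K,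
      2 * √3 / 5 ≤ |(x 1 - y 1) * (x' 2 - y' 2) - (x 2 - y 2) * (x' 1 - y' 1)|) :
    ∃ b : Fin 3 → V, Packs K b ∧
      ENNReal.ofReal (√5 / 9) * ENNReal.ofReal |dt b| ≤ volume K := by
  obtain ⟨u, w, hD, hDle, hadm⟩ := fary (shadow_convex hc) (shadow_compact hK)
    (shadow_interior hne)
  obtain ⟨D, hDd⟩ : ∃ D, D = u 0 * w 1 - u 1 * w 0 := ⟨_, rfl⟩
  rw [← hDd] at hD hDle
  have hcone := cone hK hc one_pos hx0
  have hV1 : ENNReal.ofReal (2 / 9 * D) ≤ volume K := by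
    calc ENNReal.ofReal (2 / 9 * D)
        = ENNReal.ofReal (2 / 9) * ENNReal.ofReal D := ENNReal.ofReal_mul (by norm_num)
      _ ≤ ENNReal.ofReal (2 / 9) * (ENNReal.ofReal (3 / 2) * volume (G K 0)) := by gcongr
      _ = ENNReal.ofReal (1 / 3) * volume (G K 0) := by
          rw [← mul_assoc, ← ENNReal.ofReal_mul (by norm_num)]
          congr 2
          norm_num
      _ ≤ volume K := hcone
  have hV2 : ENNReal.ofReal (√3 / 15) ≤ volume K := by
    obtain ⟨x, hx, y, hy, x', hx', y', hy', hM⟩ := hw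
    have hp : ∀ {z : V}, z ∈ K → pr z ∈ G K 0 := fun {z} hz => by rw [G_zero]; exact ⟨z, hz, rfl⟩
    have h1 := area_two (shadow_convex hc) (hp hy) (hp hx) (hp hy') (hp hx')
    have e : Dt (pr y) (pr x) (pr x') - Dt (pr y) (pr x) (pr y')
        = (x 1 - y 1) * (x' 2 - y' 2) - (x 2 - y 2) * (x' 1 - y' 1) := by
      simp only [Dt, pr_zero, pr_one]
      ring
    rw [e] at h1
    calc ENNReal.ofReal (√3 / 15) = ENNReal.ofReal (1 / 3) * ENNReal.ofReal (2 * √3 / 5 / 2) := by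
          rw [← ENNReal.ofReal_mul (by norm_num)]
          congr 1
          ring
      _ ≤ ENNReal.ofReal (1 / 3) * volume (G K 0) := by
          gcongr
          exact le_trans (ENNReal.ofReal_le_ofReal (by linarith)) h1
      _ ≤ volume K := hcone
  obtain ⟨t, ht⟩ := hole_det hDd hD
  rcases le_or_gt (1 / 5) (2 * D / (3 * √3)) with hA | hB
  · set s : ℝ := √(4 / 5) with hs
    have hs2 : s ^ 2 = 4 / 5 := Real.sq_sqrt (by norm_num)
    have hs0 : 0 < s := Real.sqrt_pos.2 (by norm_num)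
    have hpk : Packs K (bh s t u w) := by
      refine hole_packs hs0 hd (by rw [← hDd]; exact hD) hadm (by rw [hs2]; norm_num)
        fun m n => ?_
      have := ht m n
      rw [hs2]
      linarith
    refine ⟨bh s t u w, hpk, ?_⟩
    have hss : √5 * s = 2 := by
      rw [hs, ← Real.sqrt_mul (by norm_num)]
      have : (5 * (4 / 5) : ℝ) = 2 ^ 2 := by norm_num
      rw [this, Real.sqrt_sq (by norm_num)]
    rw [dt_bh, ← hDd, abs_of_pos (mul_pos hs0 hD), ← ENNReal.ofReal_mul (by positivity)]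
    have e1 : √5 / 9 * (s * D) = 2 / 9 * D := by
      linear_combination (D / 9) * hss
    rw [e1]
    exact hV1
  · set s : ℝ := √(1 - 2 * D / (3 * √3)) with hs
    have hs2 : s ^ 2 = 1 - 2 * D / (3 * √3) := Real.sq_sqrt (by linarith)
    have hs0 : 0 < s := Real.sqrt_pos.2 (by linarith)
    have hpk : Packs K (bh s t u w) := by
      refine hole_packs hs0 hd (by rw [← hDd]; exact hD) hadm (by rw [hs2]; linarith)
        fun m n => ?_
      have := ht m n
      rw [hs2]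
      linarith
    refine ⟨bh s t u w, hpk, ?_⟩
    rw [dt_bh, ← hDd, abs_of_pos (mul_pos hs0 hD), ← ENNReal.ofReal_mul (by positivity)]
    exact le_trans (ENNReal.ofReal_le_ofReal (num_bound hD hB)) hV2

end Q116.LP
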