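import Mathlib

/-!
# A contact point of large weight, trace form

Variant of `Pool.Agent.Y498.ML.weight` (same Carathéodory argument, same code for the first part).
-/

set_option autoImplicit false

open Finset

namespace Q116.LP

/-- the five independent entries of `v vᵀ` for a unit vector `v` -/
def ps (v : Fin 3 → ℝ) : Fin 5 → ℝ := ![v 0 ^ 2, v 1 ^ 2, v 0 * v 1, v 0 * v 2, v 1 * v 2]

/-- a decomposition of the identity along unit vectors has a vector `e` such that for any two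
vectors `x, y` orthogonal to `e` one of the vectors has large inner products with them -/
theorem weight2 {ι : Type} [Fintype ι] {v : ι → Fin 3 → ℝ} {c : ι → ℝ} (hc : ∀ i, 0 < c i)
    (hv : ∀ i, v i ⬝ᵥ v i = 1) (hs : ∑ i, c i • Matrix.vecMulVec (v i) (v i) = 1) :
    ∃ i, ∀ x y : Fin 3 → ℝ, x ⬝ᵥ v i = 0 → y ⬝ᵥ v i = 0 →
      ∃ j, x ⬝ᵥ x + y ⬝ᵥ y ≤ 5 / 2 * ((x ⬝ᵥ v j) ^ 2 + (y ⬝ᵥ v j) ^ 2) := by
  classical
  have hent : ∀ a b : Fin 3, ∑ i, c i * (v i a * v i b) = (1 : Matrix (Fin 3) (Fin 3) ℝ) a b := by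
    intro a b
    rw [← hs, Matrix.sum_apply]
    refine sum_congr rfl fun i _ => ?_
    simp [Matrix.vecMulVec_apply]
  have hv' : ∀ i, v i 0 ^ 2 + v i 1 ^ 2 + v i 2 ^ 2 = 1 := by
    intro i
    have := hv i
    simp only [dotProduct, Fin.sum_univ_three] at this
    linarith [this]
  have hsum : ∑ i, c i = 3 := by
    have h : ∑ i, c i = ∑ i, (c i * (v i 0 * v i 0) + c i * (v i 1 * v i 1)
        + c i * (v i 2 * v i 2)) := by
      refine sum_congr rfl fun i _ => ?_
      linear_combination (-(c i)) * hv' i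
    rw [h, sum_add_distrib, sum_add_distrib, hent, hent, hent]
    simp
    norm_num
  set tg : Fin 5 → ℝ := ![1 / 3, 1 / 3, 0, 0, 0] with htg
  have hmem : tg ∈ convexHull ℝ (Set.range fun i => ps (v i)) := by
    have h1 : tg = ∑ i, (c i / 3) • ps (v i) := by
      funext k
      rw [Finset.sum_apply]
      fin_cases k
      · have := hent 0 0
        simp only [Matrix.one_apply_eq] at this
        simp only [htg, ps, Pi.smul_apply, smul_eq_mul]
        show (1 / 3 : ℝ) = ∑ i, c i / 3 * (v i 0 ^ 2)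
        rw [← this, sum_div]
        exact sum_congr rfl fun i _ => by ring
      · have := hent 1 1
        simp only [Matrix.one_apply_eq] at this
        simp only [htg, ps, Pi.smul_apply, smul_eq_mul]
        show (1 / 3 : ℝ) = ∑ i, c i / 3 * (v i 1 ^ 2)
        rw [← this, sum_div]
        exact sum_congr rfl fun i _ => by ring
      · have := hent 0 1
        rw [Matrix.one_apply_ne (by decide)] at this
        simp only [htg, ps, Pi.smul_apply, smul_eq_mul]
        show (0 : ℝ) = ∑ i, c i / 3 * (v i 0 * v i 1)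
        rw [← zero_div 3, ← this, sum_div]
        exact sum_congr rfl fun i _ => by ring
      · have := hent 0 2
        rw [Matrix.one_apply_ne (by decide)] at this
        simp only [htg, ps, Pi.smul_apply, smul_eq_mul]
        show (0 : ℝ) = ∑ i, c i / 3 * (v i 0 * v i 2)
        rw [← zero_div 3, ← this, sum_div]
        exact sum_congr rfl fun i _ => by ring
      · have := hent 1 2
        rw [Matrix.one_apply_ne (by decide)] at this
        simp only [htg, ps, Pi.smul_apply, smul_eq_mul]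
        show (0 : ℝ) = ∑ i, c i / 3 * (v i 1 * v i 2)
        rw [← zero_div 3, ← this, sum_div]
        exact sum_congr rfl fun i _ => by ring
    rw [h1]
    refine (convex_convexHull ℝ _).sum_mem (fun i _ => by have := hc i; positivity) ?_
      fun i _ => subset_convexHull ℝ _ ⟨i, rfl⟩
    rw [← sum_div, hsum]; norm_num
  obtain ⟨κ, hκ, z, w, hz, haff, hw, hw1, hwz⟩ := eq_pos_convex_span_of_mem_convexHull hmem
  have hcard : Fintype.card κ ≤ 6 := by
    have h1 := haff.card_le_finrank_succ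
    have h2 : Module.finrank ℝ (vectorSpan ℝ (Set.range z)) ≤ 5 := by
      refine le_trans (Submodule.finrank_le _) ?_
      simp
    omega
  have hch : ∀ k, ∃ i, ps (v i) = z k := fun k => hz ⟨k, rfl⟩
  choose f hf using hch
  have hwz' : ∀ a : Fin 5, ∑ k, w k * z k a = tg a := by
    intro a
    rw [← hwz, Finset.sum_apply]
    rfl
  have z0 : ∀ k, z k 0 = v (f k) 0 ^ 2 := fun k => by rw [← hf k]; rfl
  have z1 : ∀ k, z k 1 = v (f k) 1 ^ 2 := fun k => by rw [← hf k]; rfl
  have z2 : ∀ k, z k 2 = v (f k) 0 * v (f k) 1 := fun k => by rw [← hf k]; rfl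
  have z3 : ∀ k, z k 3 = v (f k) 0 * v (f k) 2 := fun k => by rw [← hf k]; rfl
  have z4 : ∀ k, z k 4 = v (f k) 1 * v (f k) 2 := fun k => by rw [← hf k]; rfl
  have hquad : ∀ x : Fin 3 → ℝ, ∑ k, 3 * w k * (x ⬝ᵥ v (f k)) ^ 2 = x ⬝ᵥ x := by
    intro x
    have e : ∀ k, 3 * w k * (x ⬝ᵥ v (f k)) ^ 2 = 3 * (x 0 ^ 2 - x 2 ^ 2) * (w k * z k 0)
        + 3 * (x 1 ^ 2 - x 2 ^ 2) * (w k * z k 1) + 6 * x 0 * x 1 * (w k * z k 2)
        + 6 * x 0 * x 2 * (w k * z k 3) + 6 * x 1 * x 2 * (w k * z k 4)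
        + 3 * x 2 ^ 2 * w k := by
      intro k
      rw [z0, z1, z2, z3, z4]
      simp only [dotProduct, Fin.sum_univ_three]
      linear_combination (3 * x 2 ^ 2 * w k) * hv' (f k)
    rw [sum_congr rfl fun k _ => e k]
    simp only [sum_add_distrib, ← mul_sum, hwz', hw1]
    simp only [htg, dotProduct, Fin.sum_univ_three]
    show 3 * (x 0 ^ 2 - x 2 ^ 2) * (1 / 3) + 3 * (x 1 ^ 2 - x 2 ^ 2) * (1 / 3)
      + 6 * x 0 * x 1 * 0 + 6 * x 0 * x 2 * 0 + 6 * x 1 * x 2 * 0 + 3 * x 2 ^ 2 * 1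
      = x 0 * x 0 + x 1 * x 1 + x 2 * x 2
    ring
  obtain ⟨k, hk⟩ : ∃ k, 1 / 6 ≤ w k := by
    by_contra hcon
    push Not at hcon
    have hne : (univ : Finset κ).Nonempty := by
      rw [univ_nonempty_iff]
      by_contra hemp
      rw [not_nonempty_iff] at hemp
      simp at hw1
    have h1 : ∑ k, w k < ∑ _k : κ, (1 / 6 : ℝ) := sum_lt_sum_of_nonempty hne fun k _ => hcon k
    rw [hw1, sum_const, card_univ, nsmul_eq_mul] at h1
    have h2 : (Fintype.card κ : ℝ) ≤ 6 := by exact_mod_cast hcard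
    linarith
  refine ⟨f k, fun x y hx hy => ?_⟩
  by_contra hcon
  push Not at hcon
  have hpos : 0 < x ⬝ᵥ x + y ⬝ᵥ y := by
    have := hcon (f k)
    rw [hx, hy] at this
    linarith [this]
  have h1 : ∑ j ∈ univ.erase k, 3 * w j * ((x ⬝ᵥ v (f j)) ^ 2 + (y ⬝ᵥ v (f j)) ^ 2)
      = x ⬝ᵥ x + y ⬝ᵥ y := by
    rw [← hquad x, ← hquad y, ← sum_add_distrib, ← add_sum_erase univ _ (mem_univ k), hx, hy]
    simp only [mul_add]
    ring
  have hne : (univ.erase k).Nonempty := by
    by_contra hemp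
    rw [not_nonempty_iff_eq_empty] at hemp
    rw [hemp, sum_empty] at h1
    linarith
  have h2 : ∑ j ∈ univ.erase k, 3 * w j * ((x ⬝ᵥ v (f j)) ^ 2 + (y ⬝ᵥ v (f j)) ^ 2)
      < ∑ j ∈ univ.erase k, 3 * w j * (2 / 5 * (x ⬝ᵥ x + y ⬝ᵥ y)) := by
    refine sum_lt_sum_of_nonempty hne fun j _ => ?_
    have := hcon (f j)
    have hwj := hw j
    nlinarith
  have h3 : ∑ j ∈ univ.erase k, 3 * w j * (2 / 5 * (x ⬝ᵥ x + y ⬝ᵥ y))
      = (3 - 3 * w k) * (2 / 5 * (x ⬝ᵥ x + y ⬝ᵥ y)) := by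
    rw [← sum_mul, ← mul_sum]
    have := add_sum_erase univ w (mem_univ k)
    rw [hw1] at this
    congr 1
    linarith
  rw [h1, h3] at h2
  nlinarith

end Q116.LP
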