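import Pool.Agent.Y498.ML.Top
import Pool.Agent.Q116.LP.Wt
import Pool.Agent.Q116.LP.Geo

/-!
# Every convex body in space has a lattice packing of density at least `√5 / 9`
-/

set_option autoImplicit false

namespace Q116.LP

open MeasureTheory Filter Topology Matrix
open scoped ENNReal
open Pool.Agent.H349R2.Tet
open Pool.Agent.TH219.DL
open Pool.Agent.Y498.ML (loewner rot)

/-- the difference set of a set with interior points is a neighbourhood of zero -/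
theorem diff_nhds {n : ℕ} {K : Set (Fin n → ℝ)} (hne : (interior K).Nonempty) :
    (fun p : (Fin n → ℝ) × (Fin n → ℝ) => p.1 - p.2) '' (K ×ˢ K) ∈ 𝓝 (0 : Fin n → ℝ) := by
  obtain ⟨z, hz⟩ := hne
  have h1 : Tendsto (fun x : Fin n → ℝ => z + x) (𝓝 0) (𝓝 z) := by
    have : Continuous fun x : Fin n → ℝ => z + x := by fun_prop
    simpa using this.tendsto 0
  have h2 := h1.eventually (isOpen_interior.mem_nhds hz)
  refine mem_of_superset h2 fun x hx => ?_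
  exact ⟨(z + x, z), ⟨interior_subset hx, interior_subset hz⟩, by simp⟩

theorem diff_convex {n : ℕ} {K : Set (Fin n → ℝ)} (hv : Convex ℝ K) :
    Convex ℝ ((fun p : (Fin n → ℝ) × (Fin n → ℝ) => p.1 - p.2) '' (K ×ˢ K)) := by
  rintro _ ⟨⟨a, b⟩, ⟨ha, hb⟩, rfl⟩ _ ⟨⟨a', b'⟩, ⟨ha', hb'⟩, rfl⟩ s t hs ht hst
  refine ⟨(s • a + t • a', s • b + t • b'), ⟨hv ha ha' hs ht hst, hv hb hb' hs ht hst⟩, ?_⟩
  simp only [smul_sub]
  abel

theorem diff_symm {n : ℕ} {K : Set (Fin n → ℝ)} :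
    ∀ x ∈ (fun p : (Fin n → ℝ) × (Fin n → ℝ) => p.1 - p.2) '' (K ×ˢ K),
      -x ∈ (fun p : (Fin n → ℝ) × (Fin n → ℝ) => p.1 - p.2) '' (K ×ˢ K) := by
  rintro _ ⟨⟨a, b⟩, ⟨ha, hb⟩, rfl⟩
  exact ⟨(b, a), ⟨hb, ha⟩, by simp⟩

/-- every convex body has a linear image of diameter one with a vertical chord of length one and a
shadow which is wide in the sense of traces -/
theorem normal2 {K : Set V} (hK : Body K) : ∃ L : V ≃ₗ[ℝ] V,
    (∀ x ∈ L '' K, ∀ y ∈ L '' K, (x 0 - y 0) ^ 2 + (x 1 - y 1) ^ 2 + (x 2 - y 2) ^ 2 ≤ 1) ∧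
    (∃ x0, x0 ∈ G (L '' K) 1) ∧
    ∀ p q p' q' : ℝ, ∃ x ∈ L '' K, ∃ y ∈ L '' K,
      p ^ 2 + q ^ 2 + (p' ^ 2 + q' ^ 2) ≤ 5 / 2 * ((p * (x 1 - y 1) + q * (x 2 - y 2)) ^ 2
        + (p' * (x 1 - y 1) + q' * (x 2 - y 2)) ^ 2) := by
  obtain ⟨hc, hv, hne⟩ := hK
  set D : Set V := (fun p : V × V => p.1 - p.2) '' (K ×ˢ K) with hD
  have hDc : IsCompact D := (hc.prod hc).image (continuous_fst.sub continuous_snd)
  obtain ⟨L, hdet, hL1, ι, hι, v, c, hcp, hvu, hsum, hcon⟩ :=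
    loewner (by norm_num) hDc (diff_convex hv) diff_symm (diff_nhds hne)
  obtain ⟨i, hi⟩ := weight2 hcp hvu hsum
  obtain ⟨O, hO1, hO2⟩ := rot (hvu i)
  have hOd : ∀ x y : V, (O *ᵥ x) ⬝ᵥ (O *ᵥ y) = x ⬝ᵥ y := by
    intro x y
    rw [dotProduct_mulVec, ← mulVec_transpose, mulVec_mulVec, hO1, one_mulVec]
  have hOdet : O.det ≠ 0 := by
    intro h
    have := congrArg Matrix.det hO1
    rw [det_mul, det_transpose, h] at this
    simp at this
  have hMdet : LinearMap.det (Matrix.toLin' (O * L)) ≠ 0 := by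
    rw [LinearMap.det_toLin', det_mul]
    exact mul_ne_zero hOdet hdet.ne'
  set E := LinearMap.equivOfDetNeZero _ hMdet with hE
  have hEa : ∀ x : V, E x = O *ᵥ (L *ᵥ x) := by
    intro x
    show Matrix.toLin' (O * L) x = _
    rw [toLin'_apply, ← mulVec_mulVec]
  refine ⟨E, ?_, ?_, ?_⟩
  · rintro _ ⟨x, hx, rfl⟩ _ ⟨y, hy, rfl⟩
    have h1 := hL1 (x - y) ⟨(x, y), ⟨hx, hy⟩, rfl⟩
    rw [← hOd, ← hEa, map_sub] at h1
    simp only [dotProduct, Fin.sum_univ_three, Pi.sub_apply] at h1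
    linarith
  · obtain ⟨_, ⟨⟨a, b⟩, ⟨ha, hb⟩, rfl⟩, hab⟩ := hcon i
    simp only at hab
    have h1 : E a - E b = ![1, 0, 0] := by
      rw [← map_sub, hEa, hab, hO2]
    refine ⟨pr (E b), E b 0, ?_, ?_⟩
    · rw [cs_pr]; exact ⟨b, hb, rfl⟩
    · have e : cs (E b 0 + 1) (pr (E b)) = E a := by
        have h0 := congrFun h1 0
        have h2 := congrFun h1 1
        have h3 := congrFun h1 2
        simp only [Pi.sub_apply, cons_val_zero, cons_val_one, cons_val] at h0 h2 h3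
        symm
        apply cs_ext
        · linarith
        · simp only [pr_zero]; linarith
        · simp only [pr_one]; linarith
      rw [e]
      exact ⟨a, ha, rfl⟩
  · intro p q p' q'
    have hOO : O * Oᵀ = 1 := mul_eq_one_comm.1 hO1
    have hdot : ∀ f y : V, (Oᵀ *ᵥ f) ⬝ᵥ y = f ⬝ᵥ (O *ᵥ y) := by
      intro f y
      rw [mulVec_transpose, dotProduct_mulVec]
    have hxi : ∀ p q : ℝ, (Oᵀ *ᵥ (![0, p, q] : V)) ⬝ᵥ v i = 0 := by
      intro p q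
      rw [hdot, hO2]
      simp [dotProduct, Fin.sum_univ_three]
    have hxx : ∀ p q : ℝ, (Oᵀ *ᵥ (![0, p, q] : V)) ⬝ᵥ (Oᵀ *ᵥ (![0, p, q] : V))
        = p ^ 2 + q ^ 2 := by
      intro p q
      rw [hdot, mulVec_mulVec, hOO, one_mulVec]
      simp [dotProduct, Fin.sum_univ_three]
      ring
    obtain ⟨j, hj⟩ := hi _ _ (hxi p q) (hxi p' q')
    obtain ⟨_, ⟨⟨a, b⟩, ⟨ha, hb⟩, rfl⟩, hab⟩ := hcon j
    simp only at hab
    refine ⟨E a, ⟨a, ha, rfl⟩, E b, ⟨b, hb, rfl⟩, ?_⟩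
    rw [← hxx p q, ← hxx p' q']
    refine hj.trans (le_of_eq ?_)
    rw [← hab, hdot, hdot, ← hEa, map_sub]
    simp [dotProduct, Fin.sum_univ_three]

/-- the shadow of the normalised body has two chords which span a large parallelogram -/
theorem two_chords {K : Set V} (hK : IsCompact K) (hc : Convex ℝ K) (hne : (interior K).Nonempty)
    (hw : ∀ p q p' q' : ℝ, ∃ x ∈ K, ∃ y ∈ K,
      p ^ 2 + q ^ 2 + (p' ^ 2 + q' ^ 2) ≤ 5 / 2 * ((p * (x 1 - y 1) + q * (x 2 - y 2)) ^ 2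
        + (p' * (x 1 - y 1) + q' * (x 2 - y 2)) ^ 2)) :
    ∃ x ∈ K, ∃ y ∈ K, ∃ x' ∈ K, ∃ y' ∈ K,
      2 * √3 / 5 ≤ |(x 1 - y 1) * (x' 2 - y' 2) - (x 2 - y 2) * (x' 1 - y' 1)| := by
  have hPc := shadow_compact hK
  have hPv := shadow_convex hc
  have hPi := shadow_interior hne
  have hDc : IsCompact ((fun p : (Fin 2 → ℝ) × (Fin 2 → ℝ) => p.1 - p.2) '' (G K 0 ×ˢ G K 0)) :=
    (hPc.prod hPc).image (continuous_fst.sub continuous_snd)
  obtain ⟨L, hdet, hL1, ι, hι, v, c, hcp, hvu, hsum, hcon⟩ :=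
    loewner (by norm_num) hDc (diff_convex hPv) diff_symm (diff_nhds hPi)
  obtain ⟨i, j, hij⟩ := pair2 hcp hvu hsum
  obtain ⟨_, ⟨⟨a, b⟩, ⟨ha, hb⟩, rfl⟩, hab⟩ := hcon i
  obtain ⟨_, ⟨⟨a', b'⟩, ⟨ha', hb'⟩, rfl⟩, hab'⟩ := hcon j
  rw [G_zero] at ha hb ha' hb'
  obtain ⟨x, hx, rfl⟩ := ha
  obtain ⟨y, hy, rfl⟩ := hb
  obtain ⟨x', hx', rfl⟩ := ha'
  obtain ⟨y', hy', rfl⟩ := hb'
  refine ⟨x, hx, y, hy, x', hx', y', hy', ?_⟩
  simp only at hab hab'
  -- the determinant of `L` is at most `5 / 4`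
  have hdet2 : L.det = L 0 0 * L 1 1 - L 0 1 * L 1 0 := Matrix.det_fin_two L
  have hL2 : L.det ≤ 5 / 4 := by
    obtain ⟨z, hz, z', hz', hzz⟩ := hw (L 0 0) (L 0 1) (L 1 0) (L 1 1)
    have hp : ∀ {z : V}, z ∈ K → pr z ∈ G K 0 := fun {z} hz => by rw [G_zero]; exact ⟨z, hz, rfl⟩
    have h1 := hL1 (pr z - pr z') ⟨(pr z, pr z'), ⟨hp hz, hp hz'⟩, rfl⟩
    simp only [dotProduct, Fin.sum_univ_two, mulVec, Pi.sub_apply, pr_zero, pr_one] at h1
    have h2 : (L 0 0 * (z 1 - z' 1) + L 0 1 * (z 2 - z' 2)) ^ 2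
        + (L 1 0 * (z 1 - z' 1) + L 1 1 * (z 2 - z' 2)) ^ 2 ≤ 1 := by linarith
    rw [hdet2]
    nlinarith [sq_nonneg (L 0 0 - L 1 1), sq_nonneg (L 0 1 + L 1 0)]
  have hv : v i 0 * v j 1 - v i 1 * v j 0
      = L.det * ((x 1 - y 1) * (x' 2 - y' 2) - (x 2 - y 2) * (x' 1 - y' 1)) := by
    rw [← hab, ← hab', hdet2]
    simp only [dotProduct, Fin.sum_univ_two, mulVec, Pi.sub_apply, pr_zero, pr_one]
    ring
  rw [hv] at hij
  obtain ⟨M, hM⟩ : ∃ M, M = (x 1 - y 1) * (x' 2 - y' 2) - (x 2 - y 2) * (x' 1 - y' 1) := ⟨_, rfl⟩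
  rw [← hM] at hij ⊢
  have e3 : (√3 : ℝ) ^ 2 = 3 := Real.sq_sqrt (by norm_num)
  have h4 : (2 * √3 / 5) ^ 2 ≤ M ^ 2 := by
    have h5 : (2 * √3 / 5 : ℝ) ^ 2 = 12 / 25 := by
      rw [div_pow, mul_pow, e3]; norm_num
    rw [h5]
    have h6 : (L.det * M) ^ 2 ≤ (5 / 4) ^ 2 * M ^ 2 := by
      rw [mul_pow]
      exact mul_le_mul_of_nonneg_right (pow_le_pow_left₀ hdet.le hL2 2) (sq_nonneg _)
    nlinarith
  exact (pow_le_pow_iff_left₀ (by positivity) (abs_nonneg _) two_ne_zero).1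
    (by rw [sq_abs]; exact h4)

/-- every convex body in space has a lattice packing of density at least `√5 / 9` -/
theorem low {K : Set V} (hK : Body K) : ENNReal.ofReal (√5 / 9) ≤ dL K := by
  obtain ⟨L, h1, ⟨x0, h2⟩, h3⟩ := normal2 hK
  obtain ⟨hc, hv, hne⟩ := hK
  have himg : (L '' K) = (fun x => L x + 0) '' K := by
    apply Set.image_congr
    intro x _
    simp
  have hc' : IsCompact (L '' K) := hc.image (LinearMap.continuous_of_finiteDimensional L.toLinearMap)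
  have hv' : Convex ℝ (L '' K) := hv.linear_image L.toLinearMap
  have hne' : (interior (L '' K)).Nonempty := by
    rw [himg, pack_interior_image]
    exact hne.image _
  obtain ⟨b, hb1, hb2⟩ := geo_low hc' hv' hne' h1 h2 (two_chords hc' hv' hne' h3)
  set b' : Fin 3 → V := fun i => L.symm (b i) with hb'
  have hbb : (fun i => L (b' i)) = b := by
    funext i
    simp [hb']
  have hpk : Packs K b' := by
    rw [← packs_image K L 0 b', hbb, ← himg]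
    exact hb1
  have hb0 : dt b ≠ 0 := ((packs_iff _ _).1 hb1).1
  have hb0' : dt b' ≠ 0 := ((packs_iff _ _).1 hpk).1
  rw [dL_eq]
  have hle : dens K b' ≤ deltaL K := by
    unfold deltaL
    exact le_iSup₂_of_le b' hpk le_rfl
  refine le_trans ?_ hle
  rw [dens_eq b' ((dt_ne_zero_iff b').1 hb0') _ hc, ← ratio_image K L 0 b' hb0', hbb, ← himg]
  rw [ENNReal.le_div_iff_mul_le (Or.inl (by
    rw [ne_eq, ENNReal.ofReal_eq_zero, not_le]; exact abs_pos.2 hb0))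
    (Or.inl ENNReal.ofReal_ne_top)]
  exact hb2

end Q116.LP
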